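import Pool.Agent.MP_1fd3e3_co.Defs

set_option autoImplicit false

universe u v

namespace Pool.Agent.MP_1fd3e3_co

/-- The underlying set of the semigroup. -/
inductive E : Type u
  | zero : E
  | top (k : ℕ) : E
  | g (k q j : ℕ) : E

namespace E

def mul : E.{u} → E.{u} → E.{u}
  | g k q i, g k' q' j =>
    if k = k' ∧ q = q' then
      (if i + j + 2 < k then g k q (i + j + 1) else if i + j + 2 = k then top k else zero)
    else zero
  | _, _ => zero

theorem mul_assoc' (a b c : E.{u}) : mul (mul a b) c = mul a (mul b c) := by
  cases a with
  | zero => cases b <;> cases c <;> simp [mul]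
  | top k =>
    cases b <;> cases c <;> simp only [mul]
  | g k q i =>
    cases b with
    | zero => cases c <;> simp [mul]
    | top k => cases c <;> simp [mul]
    | g k' q' j =>
      cases c with
      | zero => simp only [mul]; split_ifs <;> simp only [mul]
      | top k'' => simp only [mul]; split_ifs <;> simp only [mul]
      | g k'' q'' l =>
        simp only [mul]
        by_cases h1 : k = k' ∧ q = q'
        · obtain ⟨rfl, rfl⟩ := h1
          by_cases h2 : k = k'' ∧ q = q''
          · obtain ⟨rfl, rfl⟩ := h2
            simp only [and_self, if_true]
            split_ifs <;> simp only [mul, and_self, if_true] <;> split_ifs <;>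
              first | rfl | omega | (congr 1; omega)
          · simp only [and_self, if_true, if_neg h2, mul]
            split_ifs <;> simp only [mul, if_neg h2]
        · by_cases h2 : k' = k'' ∧ q' = q''
          · obtain ⟨rfl, rfl⟩ := h2
            simp only [and_self, if_true, if_neg h1, mul]
            split_ifs <;> simp only [mul, if_neg h1]
          · simp only [if_neg h1, if_neg h2, mul]

instance : Semigroup E.{u} where
  mul := mul
  mul_assoc := mul_assoc'

end E

end Pool.Agent.MP_1fd3e3_co
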