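import Mathlib

set_option autoImplicit false

universe u v

namespace Pool.Agent.MP_1fd3e3_co

/-- `powSucc A n` is the product set `A ^ (n + 1)`, that is, all products of `n + 1` elements of `A`. -/
def powSucc {S : Type u} [Semigroup S] (A : Set S) : ℕ → Set S
  | 0 => A
  | n + 1 => {x | ∃ y ∈ powSucc A n, ∃ a ∈ A, y * a = x}

/-- The product set `A ^ h` for a positive integer `h`. -/
def pow {S : Type u} [Semigroup S] (A : Set S) (h : ℕ+) : Set S := powSucc A h.natPred

/-- The product intersection set of a family of subsets of a semigroup. -/
def prodInterSet {S : Type u} [Semigroup S] {Q : Type v} (A : Q → Set S) : Set ℕ+ :=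
  {h | pow (⋂ q, A q) h = ⋂ q, pow (A q) h}

/-- The collection `H_Q`: all product intersection sets of families indexed by `Q`, in any semigroup,
for which the set of members of the family is infinite. -/
def HQ (Q : Type v) : Set (Set ℕ+) :=
  {X | ∃ (S : Type u) (_ : Semigroup S) (A : Q → Set S), (Set.range A).Infinite ∧ prodInterSet A = X}

/-- The collection `H^*_N`: all product intersection sets of decreasing sequences of subsets
of a semigroup with infinitely many strict inclusions. -/
def HStar : Set (Set ℕ+) :=
  {X | ∃ (S : Type u) (_ : Semigroup S) (A : ℕ+ → Set S), (∀ q, A (q + 1) ⊆ A q) ∧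
    {q | A q ≠ A (q + 1)}.Infinite ∧ prodInterSet A = X}

end Pool.Agent.MP_1fd3e3_co
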