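import Pool.Agent.MP_1fd3e3_co.Core

set_option autoImplicit false

universe u v

namespace Pool.Agent.MP_1fd3e3_co

open E

theorem one_mem_prodInterSet {S : Type u} [Semigroup S] {Q : Type v} (A : Q → Set S) :
    1 ∈ prodInterSet A := by
  show pow (⋂ q, A q) 1 = ⋂ q, pow (A q) 1
  rfl

/-- excluded heights -/
def K (X : Set ℕ+) : Set ℕ := {k | ∀ h : ℕ+, (h : ℕ) = k → h ∉ X}

/-- the decreasing family -/
def F (X : Set ℕ+) (q : ℕ) : Set E.{u} :=
  {x | x = zero ∨ ∃ k ∈ K X, ∃ r, q ≤ r ∧ x = g k r 0}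

theorem mul_def (a b : E.{u}) : a * b = E.mul a b := rfl

theorem zero_mul' (a : E.{u}) : zero * a = zero := by
  rw [mul_def]; cases a <;> rfl

theorem mul_zero' (a : E.{u}) : a * zero = zero := by
  rw [mul_def]; cases a <;> rfl

theorem top_mul' (k : ℕ) (a : E.{u}) : top k * a = zero := by
  rw [mul_def]; cases a <;> rfl

theorem powSucc_F (X : Set ℕ+) (q n : ℕ) :
    powSucc (F.{u} X q) n = {x | x = zero ∨
      (∃ k ∈ K X, ∃ r, q ≤ r ∧ (n = 0 ∨ n + 1 < k) ∧ x = g k r n) ∨
      (∃ k ∈ K X, 1 ≤ n ∧ k = n + 1 ∧ x = top k)} := by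
  induction n with
  | zero =>
    ext x
    simp [powSucc, F]
  | succ n ih =>
    ext x
    simp only [powSucc, ih, Set.mem_ofPred_eq]
    constructor
    · rintro ⟨y, hy, a, ha, rfl⟩
      rcases hy with rfl | ⟨k, hk, r, hr, hn, rfl⟩ | ⟨k, hk, -, -, rfl⟩
      · left; exact zero_mul' _
      · rcases ha with rfl | ⟨k', hk', r', hr', rfl⟩
        · left; exact mul_zero' _
        · rw [mul_def]
          simp only [E.mul]
          split_ifs with h1 h2 h3
          · right; left
            exact ⟨k, hk, r, hr, Or.inr (by omega), by simp⟩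
          · right; right
            exact ⟨k, hk, by omega, by omega, rfl⟩
          · left; rfl
          · left; rfl
      · left; exact top_mul' _ _
    · rintro (rfl | ⟨k, hk, r, hr, hn, rfl⟩ | ⟨k, hk, h1, h2, rfl⟩)
      · exact ⟨zero, Or.inl rfl, zero, Or.inl rfl, zero_mul' _⟩
      · refine ⟨g k r n, Or.inr (Or.inl ⟨k, hk, r, hr, ?_, rfl⟩), g k r 0,
          Or.inr ⟨k, hk, r, hr, rfl⟩, ?_⟩
        · omega
        · rw [mul_def]
          simp only [E.mul, and_self, if_true]
          rw [if_pos (by omega)]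
      · refine ⟨g k q n, Or.inr (Or.inl ⟨k, hk, q, le_refl _, ?_, rfl⟩), g k q 0,
          Or.inr ⟨k, hk, q, le_refl _, rfl⟩, ?_⟩
        · omega
        · rw [mul_def]
          simp only [E.mul, and_self, if_true]
          rw [if_neg (by omega), if_pos (by omega)]

theorem iInter_F (X : Set ℕ+) : (⋂ q, F.{u} X q) = {zero} := by
  ext x
  simp only [Set.mem_iInter, Set.mem_singleton_iff]
  constructor
  · intro h
    rcases h 0 with h0 | ⟨k, hk, r, -, rfl⟩
    · exact h0
    · rcases h (r + 1) with h1 | ⟨k', hk', r', hr', h2⟩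
      · exact h1
      · injection h2 with _ h3 _
        omega
  · rintro rfl q
    exact Or.inl rfl

theorem powSucc_zero (n : ℕ) : powSucc ({zero} : Set E.{u}) n = {zero} := by
  induction n with
  | zero => rfl
  | succ n ih =>
    ext x
    simp only [powSucc, ih, Set.mem_ofPred_eq, Set.mem_singleton_iff, exists_eq_left, zero_mul']
    exact eq_comm

theorem iInter_powSucc_F (X : Set ℕ+) (n : ℕ) :
    (⋂ q, powSucc (F.{u} X q) n) = {x | x = zero ∨ (1 ≤ n ∧ n + 1 ∈ K X ∧ x = top (n + 1))} := by
  ext x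
  simp only [Set.mem_iInter, powSucc_F, Set.mem_ofPred_eq]
  constructor
  · intro h
    rcases h 0 with h0 | ⟨k, hk, r, -, hn, rfl⟩ | ⟨k, hk, h1, h2, rfl⟩
    · exact Or.inl h0
    · rcases h (r + 1) with h1 | ⟨k', hk', r', hr', -, h2⟩ | ⟨k', hk', -, -, h2⟩
      · exact Or.inl h1
      · injection h2 with _ h3 _
        omega
      · injection h2
    · subst h2
      exact Or.inr ⟨h1, hk, rfl⟩
  · rintro (rfl | ⟨h1, hk, rfl⟩) q
    · exact Or.inl rfl
    · exact Or.inr (Or.inr ⟨n + 1, hk, h1, rfl, rfl⟩)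

theorem prodInterSet_F (X : Set ℕ+) (hX : 1 ∈ X) {Q : Type v} (f : Q → ℕ)
    (hf : Function.Surjective f) : prodInterSet (fun q => F.{u} X (f q)) = X := by
  ext h
  show (powSucc (⋂ q, F.{u} X (f q)) h.natPred = ⋂ q, powSucc (F.{u} X (f q)) h.natPred) ↔ h ∈ X
  rw [hf.iInter_comp (fun n => F.{u} X n), hf.iInter_comp (fun n => powSucc (F.{u} X n) h.natPred),
    iInter_F, powSucc_zero, iInter_powSucc_F]
  have hh : h.natPred + 1 = (h : ℕ) := PNat.natPred_add_one h
  constructor
  · intro heq
    by_contra hne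
    have hne1 : h ≠ 1 := fun h1 => hne (h1 ▸ hX)
    have hpos : 1 ≤ h.natPred := by
      by_contra hc
      apply hne1
      apply PNat.eq
      have : h.natPred = 0 := by omega
      rw [this] at hh
      simpa using hh.symm
    have hK : h.natPred + 1 ∈ K X := by
      intro h' hh'
      have : h' = h := PNat.eq (by rw [hh', hh])
      rw [this]; exact hne
    have : (top (h.natPred + 1) : E.{u}) ∈ ({zero} : Set E.{u}) := by
      rw [heq]; exact Or.inr ⟨hpos, hK, rfl⟩
    simp at this
  · intro hmem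
    ext x
    simp only [Set.mem_singleton_iff, Set.mem_ofPred_eq]
    constructor
    · exact Or.inl
    · rintro (h1 | ⟨-, hK, -⟩)
      · exact h1
      · exact absurd hmem (hK h hh.symm)

theorem zero_mem_K (X : Set ℕ+) : 0 ∈ K X := fun h hh => absurd hh h.ne_zero

theorem F_injective (X : Set ℕ+) : Function.Injective (F.{u} X) := by
  have key : ∀ a b, F.{u} X a = F.{u} X b → b ≤ a := by
    intro a b hab
    have h1 : (g 0 a 0 : E.{u}) ∈ F.{u} X a := Or.inr ⟨0, zero_mem_K X, a, le_refl _, rfl⟩
    rw [hab] at h1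
    rcases h1 with h1 | ⟨k, -, r, hr, h2⟩
    · injection h1
    · injection h2 with _ h3 _
      omega
  intro a b hab
  exact le_antisymm (key b a hab.symm) (key a b hab)

theorem F_anti (X : Set ℕ+) {a b : ℕ} (hab : a ≤ b) : F.{u} X b ⊆ F.{u} X a := by
  rintro x (h | ⟨k, hk, r, hr, h⟩)
  · exact Or.inl h
  · exact Or.inr ⟨k, hk, r, le_trans hab hr, h⟩

theorem mem_HQ_iff (Q : Type v) [Infinite Q] (X : Set ℕ+) : X ∈ HQ.{u, v} Q ↔ 1 ∈ X := by
  constructor
  · rintro ⟨S, _, A, -, rfl⟩
    exact one_mem_prodInterSet A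
  · intro hX
    have hf : Function.Surjective (Function.invFun (Infinite.natEmbedding Q)) :=
      Function.invFun_surjective (Infinite.natEmbedding Q).injective
    refine ⟨E.{u}, inferInstance,
      fun q => F.{u} X (Function.invFun (Infinite.natEmbedding Q) q), ?_, prodInterSet_F X hX _ hf⟩
    have : Set.range (fun q => F.{u} X (Function.invFun (Infinite.natEmbedding Q) q))
        = Set.range (F.{u} X) := hf.range_comp (F.{u} X)
    rw [this]
    exact Set.infinite_range_of_injective (F_injective X)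

theorem mem_HStar_iff (X : Set ℕ+) : X ∈ HStar.{u} ↔ 1 ∈ X := by
  constructor
  · rintro ⟨S, _, A, -, -, rfl⟩
    exact one_mem_prodInterSet A
  · intro hX
    have hf : Function.Surjective PNat.natPred := fun n => ⟨n.succPNat, Nat.natPred_succPNat n⟩
    refine ⟨E.{u}, inferInstance, fun q => F.{u} X q.natPred, ?_, ?_, prodInterSet_F X hX _ hf⟩
    · intro q
      apply F_anti
      have h2 := PNat.natPred_add_one q
      have h3 := PNat.natPred_add_one (q + 1)
      rw [PNat.add_coe, PNat.one_coe] at h3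
      omega
    · have : {q : ℕ+ | F.{u} X q.natPred ≠ F.{u} X (q + 1).natPred} = Set.univ := by
        ext q
        simp only [Set.mem_ofPred_eq, Set.mem_univ, iff_true]
        intro h
        have h1 := F_injective X h
        have h2 := PNat.natPred_add_one q
        have h3 := PNat.natPred_add_one (q + 1)
        rw [PNat.add_coe, PNat.one_coe] at h3
        omega
      rw [this]
      exact Set.infinite_univ

end Pool.Agent.MP_1fd3e3_co
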